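import Pool.Agent.Lib.MP_abcfcd_nt.W.PF
import Pool.Agent.Lib.MP_abcfcd_nt.A.Main

/-!
# The abstract theorem for a quotient by a discrete subgroup

PROOF. `main_abs` with `X = G / Γ`, `P = PF c1 f1`: `loc_quot`, `openAct_quot`, `continuous_PF`,
`supp_PF`, `PF_int`, `PF_right`, `per_ne`.
-/

set_option autoImplicit false

open MeasureTheory Topology
open scoped ENNReal NNReal ComplexConjugate InnerProductSpace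

namespace Pool.Agent.MPabcfcd.Har

variable {G : Type} [Group G] [TopologicalSpace G] [IsTopologicalGroup G] [LocallyCompactSpace G]
  [T2Space G] [SecondCountableTopology G] [MeasurableSpace G] [BorelSpace G] {Γ : Subgroup G}
  [LocallyCompactSpace (G ⧸ Γ)] [T2Space (G ⧸ Γ)] [SecondCountableTopology (G ⧸ Γ)]
  [BorelSpace (G ⧸ Γ)]
  {μ : Measure G} [μ.IsHaarMeasure] [μ.IsMulRightInvariant] [μ.IsInvInvariant]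
  {m : Measure (G ⧸ Γ)} [IsFiniteMeasureOnCompacts m] [SMulInvariantMeasure G (G ⧸ Γ) m]

theorem main_quot (hd : Dis Γ) (hw : Weil μ Γ m) {L : Set G} (hL : IsCompact L) {χ : G → ℂ}
    (hχ : ∀ l ∈ L, ‖χ l‖ = 1) (hcusp : Cusp (G ⧸ Γ) L χ) (hb : Bumps L χ)
    (c1 c2 : Cyc (G ⧸ Γ)) (o1 : c1.ν.IsOpenPosMeasure) (o2 : c2.ν.IsOpenPosMeasure)
    {f1 : G → ℂ} (hf1 : Continuous f1) (hf1c : HasCompactSupport f1)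
    (hfR : ∀ l ∈ L, ∀ g, f1 (g * l) = (χ l)⁻¹ * f1 g)
    (hpos : ∀ y1 y2, 0 ≤ (ker Γ f1 (c1.j y1) (c2.j y2) * c1.w y1 * conj (c2.w y2)).re)
    (h0 : ∃ y1 y2, 0 < (ker Γ f1 (c1.j y1) (c2.j y2) * c1.w y1 * conj (c2.w y2)).re) :
    ∃ π : Submodule ℂ (Lp ℂ 2 m), IsInv G m π ∧ π ≠ ⊥ ∧
      (∀ σ, σ ≤ π → IsInv G m σ → σ = ⊥ ∨ σ = π) ∧
      (∃ F : G ⧸ Γ → ℂ, Continuous F ∧ (∃ φ ∈ π, φ =ᵐ[m] F) ∧ c1.per F (1 : G) ≠ 0) ∧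
      (∃ F : G ⧸ Γ → ℂ, Continuous F ∧ (∃ φ ∈ π, φ =ᵐ[m] F) ∧ c2.per F (1 : G) ≠ 0) ∧
      ∃ v : G ⧸ Γ → ℂ, Continuous v ∧ (∀ l ∈ L, ∀ x, v (l⁻¹ • x) = χ l * v x) ∧
        ∀ c3 : Cyc (G ⧸ Γ), (∃ F : G ⧸ Γ → ℂ, Continuous F ∧ (∃ φ ∈ π, φ =ᵐ[m] F) ∧
          ∃ g : G, c3.per F g ≠ 0) → ∃ g : G, c3.per v g ≠ 0 :=
  main_abs (loc_quot hd hw) openAct_quot hL hχ hcusp hb c1 c2 (continuous_PF hd c1 hf1 hf1c)
    (supp_PF c1 hf1c) hf1 hf1c (PF_int hd hw c1 hf1 hf1c)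
    (fun l hl x => PF_right c1 hfR l hl x) (per_ne hd c1 c2 o1 o2 hf1 hf1c hpos h0)

end Pool.Agent.MPabcfcd.Har
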