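import Pool.Agent.Lib.MP_abcfcd_nt.A.Basic

/-!
# The quotient of a group by a discrete subgroup: definitions
-/

set_option autoImplicit false

open MeasureTheory Topology
open scoped ENNReal NNReal ComplexConjugate

namespace Pool.Agent.MPabcfcd.Har

section defs

variable {G : Type} [Group G] [TopologicalSpace G]

/-- Closed discrete subgroups: only finitely many elements in every compact set. -/
def Dis (Γ : Subgroup G) : Prop := ∀ K : Set G, IsCompact K → (K ∩ (Γ : Set G)).Finite

/-- The formula of Weil for the measure `m` on `G / Γ`. -/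
def Weil [MeasurableSpace G] (μ : Measure G) (Γ : Subgroup G) (m : Measure (G ⧸ Γ)) : Prop :=
  ∀ f : G → ℝ≥0∞, Measurable f →
    ∫⁻ x : G ⧸ Γ, (∑' γ : Γ, f (x.out * (γ : G))) ∂m = ∫⁻ g, f g ∂μ

end defs

end Pool.Agent.MPabcfcd.Har
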