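import Pool.Agent.Lib.MP_abcfcd_nt.W.Quot
import Pool.Agent.Lib.MP_abcfcd_nt.A.CvB

/-!
# The kernel function of a convolution operator on the quotient

PROOF. `ker_mk`: `(mk g).out = g γ₀`, `(mk g').out = g' γ₁` with `γ₀, γ₁ ∈ Γ`; re-index the sum by
`γ ↦ γ₀ γ γ₁⁻¹` (`Equiv.tsum_eq`). `ker_fin`: for compact sets `C₀, C₁` of `G` only finitely many
`γ ∈ Γ`
have `f (g γ g'⁻¹) ≠ 0` for some `g ∈ C₀`, `g' ∈ C₁`: `γ ∈ C₀⁻¹ (supp f) C₁`. `continuous_ker`: the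
function `(g, g') ↦ ∑' γ, f (g γ g'⁻¹)` on `G × G` is continuous since it is a finite sum near every
point, and `mk × mk` is an open quotient map (`QuotientGroup.isOpenQuotientMap_mk`, product of open
quotient maps). `ker_supp`: if `C₀` is a compact lift of `C`, `g ∈ C₀` and `f (g γ g'⁻¹) ≠ 0` then
`g' ∈ (supp f)⁻¹ g γ`, so `mk g' ∈ (supp f)⁻¹ • C`, the image of a compact set under the continuous
action. `ker_right`: `f (g γ (l⁻¹ g')⁻¹) = f (g γ g'⁻¹ l)`.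
-/

set_option autoImplicit false

open MeasureTheory Topology
open scoped ENNReal NNReal ComplexConjugate InnerProductSpace

namespace Pool.Agent.MPabcfcd.Har

variable {G : Type} [Group G] [TopologicalSpace G] [IsTopologicalGroup G] [LocallyCompactSpace G]
  [T2Space G] [SecondCountableTopology G] [MeasurableSpace G] [BorelSpace G] {Γ : Subgroup G}
  [LocallyCompactSpace (G ⧸ Γ)] [T2Space (G ⧸ Γ)] [SecondCountableTopology (G ⧸ Γ)]
  [BorelSpace (G ⧸ Γ)]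
  {μ : Measure G} [μ.IsHaarMeasure] [μ.IsMulRightInvariant] [μ.IsInvInvariant]
  {m : Measure (G ⧸ Γ)} [IsFiniteMeasureOnCompacts m] [SMulInvariantMeasure G (G ⧸ Γ) m]

/-- The kernel function `∑ f (g γ g'⁻¹)`. -/
noncomputable def ker (Γ : Subgroup G) (f : G → ℂ) (x x' : G ⧸ Γ) : ℂ :=
  ∑' γ : Γ, f (x.out * (γ : G) * (x'.out)⁻¹)

theorem ker_mk (f : G → ℂ) (g g' : G) : ker Γ f (QuotientGroup.mk g) (QuotientGroup.mk g') =
    ∑' γ : Γ, f (g * (γ : G) * g'⁻¹) := by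
  obtain ⟨h, hh⟩ := QuotientGroup.mk_out_eq_mul Γ g
  obtain ⟨h', hh'⟩ := QuotientGroup.mk_out_eq_mul Γ g'
  unfold ker
  rw [hh, hh', ← ((Equiv.mulLeft h).trans (Equiv.mulRight h'⁻¹)).tsum_eq
    fun γ : Γ => f (g * (γ : G) * g'⁻¹)]
  refine tsum_congr fun γ => ?_
  congr 1
  simp only [Equiv.trans_apply, Equiv.coe_mulLeft, Equiv.coe_mulRight, Subgroup.coe_mul,
    Subgroup.coe_inv]
  group

open scoped Pointwise in
theorem ker_fin (hd : Dis Γ) {f : G → ℂ} (hfc : HasCompactSupport f) {C₀ C₁ : Set G}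
    (h0 : IsCompact C₀) (h1 : IsCompact C₁) :
    {γ : Γ | ∃ g ∈ C₀, ∃ g' ∈ C₁, f (g * (γ : G) * g'⁻¹) ≠ 0}.Finite := by
  have hK : IsCompact (C₀⁻¹ * tsupport f * C₁) := (h0.inv.mul hfc).mul h1
  have hfin := (hd _ hK).preimage (f := (Subtype.val : Γ → G)) Subtype.val_injective.injOn
  refine hfin.subset ?_
  rintro γ ⟨g, hg, g', hg', hne⟩
  refine ⟨?_, γ.2⟩
  have h3 : (γ : G) = g⁻¹ * (g * (γ : G) * g'⁻¹) * g' := by group
  rw [h3]
  exact Set.mul_mem_mul (Set.mul_mem_mul (Set.inv_mem_inv.2 hg)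
    (subset_tsupport f (Function.mem_support.2 hne))) hg'

theorem continuous_ker (hd : Dis Γ) {f : G → ℂ} (hf : Continuous f)
    (hfc : HasCompactSupport f) :
    Continuous fun p : (G ⧸ Γ) × (G ⧸ Γ) => ker Γ f p.1 p.2 := by
  have h1 : Continuous fun q : G × G => ∑' γ : Γ, f (q.1 * (γ : G) * q.2⁻¹) := by
    rw [continuous_iff_continuousAt]
    rintro ⟨a, b⟩
    obtain ⟨C₀, hC₀, ha⟩ := exists_compact_mem_nhds a
    obtain ⟨C₁, hC₁, hb⟩ := exists_compact_mem_nhds b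
    have hfin := ker_fin (Γ := Γ) hd hfc hC₀ hC₁
    have hev : (fun q : G × G => ∑ γ ∈ hfin.toFinset, f (q.1 * (γ : G) * q.2⁻¹)) =ᶠ[𝓝 (a, b)]
        fun q : G × G => ∑' γ : Γ, f (q.1 * (γ : G) * q.2⁻¹) := by
      filter_upwards [prod_mem_nhds ha hb] with q hq
      refine (tsum_eq_sum fun γ hγ => ?_).symm
      by_contra hne
      exact hγ (hfin.mem_toFinset.2 ⟨q.1, hq.1, q.2, hq.2, hne⟩)
    refine ContinuousAt.congr ?_ hev
    refine Continuous.continuousAt ?_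
    refine continuous_finsetSum _ fun γ _ => ?_
    exact hf.comp (by fun_prop)
  have h2 : IsOpenQuotientMap (Prod.map (QuotientGroup.mk : G → G ⧸ Γ)
      (QuotientGroup.mk : G → G ⧸ Γ)) :=
    QuotientGroup.isOpenQuotientMap_mk.prodMap QuotientGroup.isOpenQuotientMap_mk
  rw [h2.isQuotientMap.continuous_iff]
  refine h1.congr fun q => ?_
  exact (ker_mk f q.1 q.2).symm

open scoped Pointwise in
theorem ker_supp {f : G → ℂ} (hfc : HasCompactSupport f) {C : Set (G ⧸ Γ)} (hC : IsCompact C) :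
    ∃ C' : Set (G ⧸ Γ), IsCompact C' ∧ ∀ x ∈ C, ∀ x', ker Γ f x x' ≠ 0 → x' ∈ C' := by
  obtain ⟨C₀, hC₀, hlift⟩ := exists_lift hC
  refine ⟨(fun p : G × (G ⧸ Γ) => p.1 • p.2) '' ((tsupport f)⁻¹ ×ˢ C),
    ((IsCompact.inv hfc).prod hC).image continuous_smul, ?_⟩
  intro x hx x' hne
  obtain ⟨g, rfl⟩ := QuotientGroup.mk_surjective x
  obtain ⟨g', rfl⟩ := QuotientGroup.mk_surjective x'
  rw [ker_mk] at hne
  have h1 : ∃ γ : Γ, f (g * (γ : G) * g'⁻¹) ≠ 0 := by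
    by_contra hcon
    push Not at hcon
    refine hne ?_
    rw [tsum_congr hcon, tsum_zero]
  obtain ⟨γ, hγ⟩ := h1
  refine ⟨((g * (γ : G) * g'⁻¹)⁻¹, QuotientGroup.mk g), ⟨?_, hx⟩, ?_⟩
  · exact Set.inv_mem_inv.2 (subset_tsupport f (Function.mem_support.2 hγ))
  · show (g * (γ : G) * g'⁻¹)⁻¹ • (QuotientGroup.mk g : G ⧸ Γ) = QuotientGroup.mk g'
    rw [MulAction.Quotient.smul_mk, smul_eq_mul, QuotientGroup.eq]
    have h3 : ((g * (γ : G) * g'⁻¹)⁻¹ * g)⁻¹ * g' = (γ : G) := by group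
    rw [h3]
    exact γ.2

theorem ker_right {L : Set G} {χ : G → ℂ} {f : G → ℂ}
    (hfR : ∀ l ∈ L, ∀ g, f (g * l) = (χ l)⁻¹ * f g) {l : G} (h : l ∈ L) (x x' : G ⧸ Γ) :
    ker Γ f x (l⁻¹ • x') = (χ l)⁻¹ * ker Γ f x x' := by
  obtain ⟨g, rfl⟩ := QuotientGroup.mk_surjective x
  obtain ⟨g', rfl⟩ := QuotientGroup.mk_surjective x'
  rw [MulAction.Quotient.smul_mk, smul_eq_mul, ker_mk, ker_mk, ← tsum_mul_left]
  refine tsum_congr fun γ => ?_
  rw [← hfR l h]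
  congr 1
  group

end Pool.Agent.MPabcfcd.Har
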