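import Pool.Agent.Lib.MP_abcfcd_nt.W.Ker
import Pool.Agent.Lib.MP_abcfcd_nt.A.CvA

/-!
# The kernel function represents the convolution operator

PROOF. `ker_int`: `cv μ f φ (mk g) = ∫ f(h) φ(h⁻¹ g Γ) dh = ∫ f(g h⁻¹) φ(mk h) dh` (substitution) `=
∫_X ∑_γ f(g γ⁻¹ (x'.out)⁻¹) φ(x') dm` by the formula of Weil for integrable complex functions (from
`Weil` for nonnegative functions: real and imaginary, positive and negative parts; integrability by
`cv_int`); re-index `γ ↦ γ⁻¹`.
-/

set_option autoImplicit false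

open MeasureTheory Topology
open scoped ENNReal NNReal ComplexConjugate InnerProductSpace

namespace Pool.Agent.MPabcfcd.Har

variable {G : Type} [Group G] [TopologicalSpace G] [IsTopologicalGroup G] [LocallyCompactSpace G]
  [T2Space G] [SecondCountableTopology G] [MeasurableSpace G] [BorelSpace G] {Γ : Subgroup G}
  [LocallyCompactSpace (G ⧸ Γ)] [T2Space (G ⧸ Γ)] [SecondCountableTopology (G ⧸ Γ)]
  [BorelSpace (G ⧸ Γ)]
  {μ : Measure G} [μ.IsHaarMeasure] [μ.IsMulRightInvariant] [μ.IsInvInvariant]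
  {m : Measure (G ⧸ Γ)} [IsFiniteMeasureOnCompacts m] [SMulInvariantMeasure G (G ⧸ Γ) m]

private theorem KI_sum (hd : Dis Γ) {f : G → ℂ} (hfc : HasCompactSupport f) (g g' : G) :
    Summable fun γ : Γ => f (g * (γ : G) * g'⁻¹) := by
  refine summable_of_hasFiniteSupport ?_
  refine (ker_fin hd hfc (isCompact_singleton (x := g)) (isCompact_singleton (x := g'))).subset ?_
  intro γ hγ
  exact ⟨g, rfl, g', rfl, hγ⟩

private theorem KI_out (f : G → ℂ) (g : G) (x : G ⧸ Γ) :
    ker Γ f (QuotientGroup.mk g) x = ∑' γ : Γ, f (g * ((x.out : G) * (γ : G))⁻¹) := by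
  have h1 := ker_mk (Γ := Γ) f g x.out
  rw [QuotientGroup.out_eq'] at h1
  rw [h1, ← (Equiv.inv Γ).tsum_eq]
  refine tsum_congr fun γ => ?_
  simp only [Equiv.inv_apply, Subgroup.coe_inv, mul_inv_rev, mul_assoc]

private theorem KI_nn (hd : Dis Γ) (hw : Weil μ Γ m) {k : G → ℝ≥0} (hk : Continuous k)
    (hkc : HasCompactSupport k) (φ : Lp ℂ 2 m) (g : G)
    (hi : Integrable (fun h => ((k (g * h⁻¹) : ℝ) : ℂ) * φ (QuotientGroup.mk h)) μ) :
    Integrable (fun x' => ker Γ (fun h => ((k h : ℝ) : ℂ)) (QuotientGroup.mk g) x' * φ x') m ∧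
      ∫ x', ker Γ (fun h => ((k h : ℝ) : ℂ)) (QuotientGroup.mk g) x' * φ x' ∂m =
        ∫ h, ((k (g * h⁻¹) : ℝ) : ℂ) * φ (QuotientGroup.mk h) ∂μ := by
  have hfc : HasCompactSupport fun h => ((k h : ℝ) : ℂ) :=
    hkc.comp_left (g := fun t : ℝ≥0 => ((t : ℝ) : ℂ)) (by simp)
  have hf : Continuous fun h => ((k h : ℝ) : ℂ) :=
    Complex.continuous_ofReal.comp (NNReal.continuous_coe.comp hk)
  set K : G ⧸ Γ → ℝ≥0 := fun x => ∑' γ : Γ, k (g * ((x.out : G) * (γ : G))⁻¹) with hK
  have hsum : ∀ x : G ⧸ Γ, Summable fun γ : Γ => k (g * ((x.out : G) * (γ : G))⁻¹) := by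
    intro x
    refine summable_of_hasFiniteSupport ?_
    have h1 := (ker_fin hd hfc (isCompact_singleton (x := g))
      (isCompact_singleton (x := (x.out : G)))).preimage
      (f := fun γ : Γ => γ⁻¹) inv_injective.injOn
    refine h1.subset fun γ hγ => ⟨g, rfl, (x.out : G), rfl, ?_⟩
    have h2 : k (g * ((x.out : G) * (γ : G))⁻¹) ≠ 0 := hγ
    simp only [Subgroup.coe_inv, mul_assoc, ← mul_inv_rev, ne_eq, Complex.ofReal_eq_zero,
      NNReal.coe_eq_zero]
    exact h2
  have hKk : ∀ x : G ⧸ Γ, ((K x : ℝ) : ℂ) =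
      ker Γ (fun h => ((k h : ℝ) : ℂ)) (QuotientGroup.mk g) x := by
    intro x
    rw [KI_out, hK, NNReal.coe_tsum, Complex.ofReal_tsum]
  have hKm : Measurable K := by
    have h1 : K = fun x => Real.toNNReal
        (ker Γ (fun h => ((k h : ℝ) : ℂ)) (QuotientGroup.mk g) x).re := by
      funext x
      rw [← hKk x, Complex.ofReal_re, Real.toNNReal_coe]
    rw [h1]
    have h2 := continuous_ker hd hf hfc
    have h3 : Continuous fun x : G ⧸ Γ =>
        ker Γ (fun h => ((k h : ℝ) : ℂ)) (QuotientGroup.mk g) x :=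
      h2.comp (continuous_const.prodMk continuous_id)
    exact (continuous_real_toNNReal.comp (Complex.continuous_re.comp h3)).measurable
  set q : G → ℝ≥0 := fun h => k (g * h⁻¹) with hq
  have hqm : Measurable q := by
    have h1 : Continuous fun h : G => g * h⁻¹ := by fun_prop
    exact (hk.comp h1).measurable
  have hmk : Measurable (QuotientGroup.mk : G → G ⧸ Γ) :=
    (QuotientGroup.continuous_mk (N := Γ)).measurable
  have hmeas : (μ.withDensity fun h => (q h : ℝ≥0∞)).map (QuotientGroup.mk : G → G ⧸ Γ) =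
      m.withDensity fun x => (K x : ℝ≥0∞) := by
    refine Measure.ext fun s hs => ?_
    rw [Measure.map_apply hmk hs, withDensity_apply _ (hmk hs), withDensity_apply _ hs,
      ← lintegral_indicator (hmk hs), ← lintegral_indicator hs]
    have h1 := weil_mul hw (h := s.indicator fun _ => (1 : ℝ≥0∞))
      (measurable_const.indicator hs) (k := fun h => (q h : ℝ≥0∞)) hqm.coe_nnreal_ennreal
    have h2 : ∀ h : G, ((QuotientGroup.mk : G → G ⧸ Γ) ⁻¹' s).indicator
        (fun h => (q h : ℝ≥0∞)) h =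
        (q h : ℝ≥0∞) * s.indicator (fun _ => (1 : ℝ≥0∞)) (QuotientGroup.mk h) := by
      intro h
      by_cases hh : (QuotientGroup.mk h : G ⧸ Γ) ∈ s
      · rw [Set.indicator_of_mem hh, Set.indicator_of_mem (show h ∈ _ ⁻¹' s from hh), mul_one]
      · rw [Set.indicator_of_notMem hh, Set.indicator_of_notMem (show h ∉ _ ⁻¹' s from hh),
          mul_zero]
    rw [lintegral_congr h2, h1]
    refine lintegral_congr fun x => ?_
    have h3 : (K x : ℝ≥0∞) = ∑' γ : Γ, (q ((x.out : G) * (γ : G)) : ℝ≥0∞) := by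
      rw [hK, ENNReal.coe_tsum (hsum x)]
    by_cases hx : x ∈ s
    · rw [Set.indicator_of_mem hx, Set.indicator_of_mem hx, one_mul, h3]
    · rw [Set.indicator_of_notMem hx, Set.indicator_of_notMem hx, zero_mul]
  have hφ : StronglyMeasurable φ := Lp.stronglyMeasurable φ
  have e1 : ∀ x : G ⧸ Γ, K x • (φ x : ℂ) =
      ker Γ (fun h => ((k h : ℝ) : ℂ)) (QuotientGroup.mk g) x * φ x := by
    intro x
    rw [← hKk x, NNReal.smul_def, Complex.real_smul]
  have e2 : ∀ h : G, q h • (φ (QuotientGroup.mk h) : ℂ) =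
      ((k (g * h⁻¹) : ℝ) : ℂ) * φ (QuotientGroup.mk h) := by
    intro h
    rw [NNReal.smul_def, Complex.real_smul]
  constructor
  · have h1 : Integrable (fun h => q h • (φ (QuotientGroup.mk h) : ℂ)) μ := by
      refine hi.congr (Filter.Eventually.of_forall fun h => ?_)
      exact (e2 h).symm
    have h2 := (integrable_withDensity_iff_integrable_smul hqm).2 h1
    have h3 : Integrable (fun x => (φ x : ℂ))
        ((μ.withDensity fun h => (q h : ℝ≥0∞)).map (QuotientGroup.mk : G → G ⧸ Γ)) := by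
      rw [integrable_map_measure hφ.aestronglyMeasurable hmk.aemeasurable]
      exact h2
    rw [hmeas] at h3
    have h4 := (integrable_withDensity_iff_integrable_smul hKm).1 h3
    refine h4.congr (Filter.Eventually.of_forall fun x => ?_)
    exact e1 x
  · have h1 := integral_withDensity_eq_integral_smul (μ := m) hKm (fun x => (φ x : ℂ))
    have h2 := integral_withDensity_eq_integral_smul (μ := μ) hqm
      (fun h => (φ (QuotientGroup.mk h) : ℂ))
    have h3 := integral_map (μ := μ.withDensity fun h => (q h : ℝ≥0∞)) hmk.aemeasurable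
      (f := fun x => (φ x : ℂ)) hφ.aestronglyMeasurable
    rw [hmeas, h1, h2] at h3
    simp only [e1, e2] at h3
    exact h3

private theorem KI_add (hd : Dis Γ) {f₁ f₂ : G → ℂ} (h1 : HasCompactSupport f₁)
    (h2 : HasCompactSupport f₂) (g : G) (x : G ⧸ Γ) :
    ker Γ (fun h => f₁ h + f₂ h) (QuotientGroup.mk g) x =
      ker Γ f₁ (QuotientGroup.mk g) x + ker Γ f₂ (QuotientGroup.mk g) x := by
  obtain ⟨g', rfl⟩ := QuotientGroup.mk_surjective x
  rw [ker_mk, ker_mk, ker_mk]
  exact (KI_sum hd h1 g g').tsum_add (KI_sum hd h2 g g')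

private theorem KI_smul (c : ℂ) (f : G → ℂ) (g : G) (x : G ⧸ Γ) :
    ker Γ (fun h => c * f h) (QuotientGroup.mk g) x = c * ker Γ f (QuotientGroup.mk g) x := by
  obtain ⟨g', rfl⟩ := QuotientGroup.mk_surjective x
  rw [ker_mk, ker_mk]
  exact tsum_mul_left

private theorem KI_int4 {Y : Type} [MeasurableSpace Y] {ν : Measure Y} {A B C D : Y → ℂ}
    (hA : Integrable A ν) (hB : Integrable B ν) (hC : Integrable C ν) (hD : Integrable D ν) :
    ∫ y, (A y + (-1) * B y) + (Complex.I * C y + (-Complex.I) * D y) ∂ν =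
      ((∫ y, A y ∂ν) + (-1) * ∫ y, B y ∂ν) +
        (Complex.I * (∫ y, C y ∂ν) + (-Complex.I) * ∫ y, D y ∂ν) := by
  have b : Integrable (fun y => (-1 : ℂ) * B y) ν := hB.const_mul _
  have c : Integrable (fun y => Complex.I * C y) ν := hC.const_mul _
  have d : Integrable (fun y => (-Complex.I) * D y) ν := hD.const_mul _
  have h1 : Integrable (fun y => A y + (-1) * B y) ν := hA.add b
  have h2 : Integrable (fun y => Complex.I * C y + (-Complex.I) * D y) ν := c.add d
  rw [integral_add h1 h2, integral_add hA b, integral_add c d, integral_const_mul,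
    integral_const_mul, integral_const_mul]

theorem ker_int (hd : Dis Γ) (hw : Weil μ Γ m) {f : G → ℂ} (hf : Continuous f)
    (hfc : HasCompactSupport f) (φ : Lp ℂ 2 m) (x : G ⧸ Γ) :
    ∫ x', ker Γ f x x' * φ x' ∂m = cv μ f φ x := by
  obtain ⟨g, rfl⟩ := QuotientGroup.mk_surjective x
  have hl : Loc μ m := loc_quot hd hw
  have sub : ∀ F : G → ℂ, cv μ F φ (QuotientGroup.mk g) =
      ∫ h, F (g * h⁻¹) * φ (QuotientGroup.mk h) ∂μ := by
    intro F
    unfold cv
    rw [← integral_mul_left_eq_self _ g, ← integral_inv_eq_self]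
    refine integral_congr_ae (Filter.Eventually.of_forall fun h => ?_)
    simp only
    rw [MulAction.Quotient.smul_mk, smul_eq_mul, mul_inv_rev, inv_inv, inv_mul_cancel_right]
  have subi : ∀ F : G → ℂ, Continuous F → HasCompactSupport F →
      Integrable (fun h => F (g * h⁻¹) * φ (QuotientGroup.mk h)) μ := by
    intro F h1 h2
    have h3 := cv_int hl h1 h2 φ (QuotientGroup.mk g)
    have h4 := (h3.comp_mul_left g).comp_inv
    refine h4.congr (Filter.Eventually.of_forall fun h => ?_)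
    simp only
    rw [MulAction.Quotient.smul_mk, smul_eq_mul, mul_inv_rev, inv_inv, inv_mul_cancel_right]
  -- the four parts
  have part : ∀ r : ℂ → ℝ, Continuous r → r 0 = 0 →
      Integrable (fun x' => ker Γ (fun h => ((Real.toNNReal (r (f h)) : ℝ) : ℂ))
        (QuotientGroup.mk g) x' * φ x') m ∧
      ∫ x', ker Γ (fun h => ((Real.toNNReal (r (f h)) : ℝ) : ℂ))
        (QuotientGroup.mk g) x' * φ x' ∂m =
        ∫ h, ((Real.toNNReal (r (f (g * h⁻¹))) : ℝ) : ℂ) * φ (QuotientGroup.mk h) ∂μ := by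
    intro r hr hr0
    have hk : Continuous fun h => Real.toNNReal (r (f h)) :=
      continuous_real_toNNReal.comp (hr.comp hf)
    have hkc : HasCompactSupport fun h => Real.toNNReal (r (f h)) :=
      hfc.comp_left (g := fun z : ℂ => Real.toNNReal (r z)) (by simp [hr0])
    refine KI_nn hd hw hk hkc φ g ?_
    refine subi (fun h => ((Real.toNNReal (r (f h)) : ℝ) : ℂ)) ?_ ?_
    · exact Complex.continuous_ofReal.comp (NNReal.continuous_coe.comp hk)
    · exact hkc.comp_left (g := fun t : ℝ≥0 => ((t : ℝ) : ℂ)) (by simp)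
  have pc : ∀ r : ℂ → ℝ, Continuous r → r 0 = 0 →
      HasCompactSupport fun h => ((Real.toNNReal (r (f h)) : ℝ) : ℂ) := by
    intro r hr hr0
    exact hfc.comp_left (g := fun z : ℂ => ((Real.toNNReal (r z) : ℝ) : ℂ)) (by simp [hr0])
  have hr1 : Continuous fun z : ℂ => z.re := Complex.continuous_re
  have hr2 : Continuous fun z : ℂ => -z.re := Complex.continuous_re.neg
  have hr3 : Continuous fun z : ℂ => z.im := Complex.continuous_im
  have hr4 : Continuous fun z : ℂ => -z.im := Complex.continuous_im.neg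
  obtain ⟨i1, e1⟩ := part (fun z => z.re) hr1 (by simp)
  obtain ⟨i2, e2⟩ := part (fun z => -z.re) hr2 (by simp)
  obtain ⟨i3, e3⟩ := part (fun z => z.im) hr3 (by simp)
  obtain ⟨i4, e4⟩ := part (fun z => -z.im) hr4 (by simp)
  have c1 := pc (fun z => z.re) hr1 (by simp)
  have c2 := pc (fun z => -z.re) hr2 (by simp)
  have c3 := pc (fun z => z.im) hr3 (by simp)
  have c4 := pc (fun z => -z.im) hr4 (by simp)
  have j : ∀ r : ℂ → ℝ, Continuous r → r 0 = 0 →
      Integrable (fun h => ((Real.toNNReal (r (f (g * h⁻¹))) : ℝ) : ℂ) *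
        φ (QuotientGroup.mk h)) μ := by
    intro r hr hr0
    refine subi (fun h => ((Real.toNNReal (r (f h)) : ℝ) : ℂ)) ?_ (pc r hr hr0)
    exact Complex.continuous_ofReal.comp (NNReal.continuous_coe.comp
      (continuous_real_toNNReal.comp (hr.comp hf)))
  have j1 := j (fun z => z.re) hr1 (by simp)
  have j2 := j (fun z => -z.re) hr2 (by simp)
  have j3 := j (fun z => z.im) hr3 (by simp)
  have j4 := j (fun z => -z.im) hr4 (by simp)
  have hdec : ∀ z : ℂ, z = (((Real.toNNReal z.re : ℝ) : ℂ) + (-1) * ((Real.toNNReal (-z.re) : ℝ) :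
      ℂ)) + (Complex.I * ((Real.toNNReal z.im : ℝ) : ℂ) + (-Complex.I) *
      ((Real.toNNReal (-z.im) : ℝ) : ℂ)) := by
    intro z
    have h1 : ∀ t : ℝ, t = (Real.toNNReal t : ℝ) + (-1) * (Real.toNNReal (-t) : ℝ) := by
      intro t
      rw [Real.coe_toNNReal', Real.coe_toNNReal']
      rcases le_total 0 t with h | h
      · rw [max_eq_left h, max_eq_right (by linarith)]
        ring
      · rw [max_eq_right h, max_eq_left (by linarith)]
        ring
    have h2 := congrArg (fun t : ℝ => (t : ℂ)) (h1 z.re)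
    have h3 := congrArg (fun t : ℝ => (t : ℂ)) (h1 z.im)
    push_cast at h2 h3
    calc z = (z.re : ℂ) + (z.im : ℂ) * Complex.I := (Complex.re_add_im z).symm
      _ = _ := by
        rw [h2, h3]
        ring
  rw [sub f]
  have hf' : f = fun h => (((Real.toNNReal (f h).re : ℝ) : ℂ) + (-1) *
      ((Real.toNNReal (-(f h).re) : ℝ) : ℂ)) + (Complex.I * ((Real.toNNReal (f h).im : ℝ) : ℂ) +
      (-Complex.I) * ((Real.toNNReal (-(f h).im) : ℝ) : ℂ)) := by
    funext h
    exact hdec (f h)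
  have hk : ∀ x' : G ⧸ Γ, ker Γ f (QuotientGroup.mk g) x' * φ x' =
      (ker Γ (fun h => ((Real.toNNReal (f h).re : ℝ) : ℂ)) (QuotientGroup.mk g) x' * φ x' +
        (-1) * (ker Γ (fun h => ((Real.toNNReal (-(f h).re) : ℝ) : ℂ)) (QuotientGroup.mk g) x' *
          φ x')) +
      (Complex.I * (ker Γ (fun h => ((Real.toNNReal (f h).im : ℝ) : ℂ))
          (QuotientGroup.mk g) x' * φ x') +
        (-Complex.I) * (ker Γ (fun h => ((Real.toNNReal (-(f h).im) : ℝ) : ℂ))
          (QuotientGroup.mk g) x' * φ x')) := by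
    intro x'
    have s2 : HasCompactSupport fun h => (-1 : ℂ) * ((Real.toNNReal (-(f h).re) : ℝ) : ℂ) :=
      c2.mul_left
    have s3 : HasCompactSupport fun h => Complex.I * ((Real.toNNReal (f h).im : ℝ) : ℂ) :=
      c3.mul_left
    have s4 : HasCompactSupport fun h => (-Complex.I) * ((Real.toNNReal (-(f h).im) : ℝ) : ℂ) :=
      c4.mul_left
    have h1 := KI_add (Γ := Γ) hd (c1.add s2) (s3.add s4) g x'
    simp only [Pi.add_apply] at h1
    rw [← hf'] at h1
    have h2 := KI_add (Γ := Γ) hd c1 s2 g x'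
    have h3 := KI_add (Γ := Γ) hd s3 s4 g x'
    have h4 : ker Γ ((fun h => ((Real.toNNReal (f h).re : ℝ) : ℂ)) +
        fun h => (-1 : ℂ) * ((Real.toNNReal (-(f h).re) : ℝ) : ℂ)) (QuotientGroup.mk g) x' =
        ker Γ (fun h => ((Real.toNNReal (f h).re : ℝ) : ℂ) +
          (-1 : ℂ) * ((Real.toNNReal (-(f h).re) : ℝ) : ℂ)) (QuotientGroup.mk g) x' := rfl
    have h5 : ker Γ ((fun h => Complex.I * ((Real.toNNReal (f h).im : ℝ) : ℂ)) +
        fun h => (-Complex.I) * ((Real.toNNReal (-(f h).im) : ℝ) : ℂ)) (QuotientGroup.mk g) x' =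
        ker Γ (fun h => Complex.I * ((Real.toNNReal (f h).im : ℝ) : ℂ) +
          (-Complex.I) * ((Real.toNNReal (-(f h).im) : ℝ) : ℂ)) (QuotientGroup.mk g) x' := rfl
    rw [h1, h4, h5, h2, h3, KI_smul, KI_smul, KI_smul]
    ring
  have hr : ∀ h : G, f (g * h⁻¹) * φ (QuotientGroup.mk h) =
      (((Real.toNNReal (f (g * h⁻¹)).re : ℝ) : ℂ) * φ (QuotientGroup.mk h) +
        (-1) * (((Real.toNNReal (-(f (g * h⁻¹)).re) : ℝ) : ℂ) * φ (QuotientGroup.mk h))) +
      (Complex.I * (((Real.toNNReal (f (g * h⁻¹)).im : ℝ) : ℂ) * φ (QuotientGroup.mk h)) +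
        (-Complex.I) * (((Real.toNNReal (-(f (g * h⁻¹)).im) : ℝ) : ℂ) *
          φ (QuotientGroup.mk h))) := by
    intro h
    have h1 := hdec (f (g * h⁻¹))
    linear_combination (φ (QuotientGroup.mk h) : ℂ) * h1
  rw [integral_congr_ae (Filter.Eventually.of_forall hk),
    integral_congr_ae (Filter.Eventually.of_forall hr)]
  rw [KI_int4 i1 i2 i3 i4, KI_int4 j1 j2 j3 j4, e1, e2, e3, e4]

end Pool.Agent.MPabcfcd.Har
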