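import Pool.Agent.Lib.MP_abcfcd_nt.W.KerI

/-!
# The Poincaré function of a period

PROOF. `continuous_PF`: `Y` is compact and the integrand is continuous on `Y × X`
(`continuous_parametric_integral_of_continuous`). `supp_PF`: `ker_supp` for the compact set `j(Y)`.
`PF_int`: Fubini: `∫_X ∫_Y ker (j y) x w(y) φ(x) = ∫_Y w(y) ∫_X ker (j y) x φ(x) dm dν = ∫_Y w(y)
cv f φ (j y) dν` by `ker_int`; the integrand is integrable on the product: `ker` is bounded and
supported in `j(Y) × C'`, and `φ` is integrable on the compact `C'`. `PF_right`: `ker_right`.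
`per_ne`: `conj (c2.per (conj PF) 1) = ∫_{Y2} ∫_{Y1} ker (j1 y1) (j2 y2) w1(y1) conj(w2(y2))`; the
integrand is continuous on `Y1 × Y2`, its real part is nonnegative and positive at one point; the
measures are positive on nonempty open sets, so the real part of the integral is positive.
-/

set_option autoImplicit false

open MeasureTheory Topology
open scoped ENNReal NNReal ComplexConjugate InnerProductSpace

namespace Pool.Agent.MPabcfcd.Har

variable {G : Type} [Group G] [TopologicalSpace G] [IsTopologicalGroup G] [LocallyCompactSpace G]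
  [T2Space G] [SecondCountableTopology G] [MeasurableSpace G] [BorelSpace G] {Γ : Subgroup G}
  [LocallyCompactSpace (G ⧸ Γ)] [T2Space (G ⧸ Γ)] [SecondCountableTopology (G ⧸ Γ)]
  [BorelSpace (G ⧸ Γ)]
  {μ : Measure G} [μ.IsHaarMeasure] [μ.IsMulRightInvariant] [μ.IsInvInvariant]
  {m : Measure (G ⧸ Γ)} [IsFiniteMeasureOnCompacts m] [SMulInvariantMeasure G (G ⧸ Γ) m]

/-- The Poincaré function of the period `c`. -/
noncomputable def PF (c : Cyc (G ⧸ Γ)) (f : G → ℂ) (x : G ⧸ Γ) : ℂ :=
  ∫ y, ker Γ f (c.j y) x * c.w y ∂c.ν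

theorem continuous_PF (hd : Dis Γ) (c : Cyc (G ⧸ Γ)) {f : G → ℂ} (hf : Continuous f)
    (hfc : HasCompactSupport f) : Continuous (PF c f) := by
  have h1 : Continuous (Function.uncurry fun (x : G ⧸ Γ) (y : c.Y) =>
      ker Γ f (c.j y) x * c.w y) := by
    have h2 : Continuous fun p : (G ⧸ Γ) × c.Y => ker Γ f (c.j p.2) p.1 :=
      (continuous_ker hd hf hfc).comp ((c.hj.comp continuous_snd).prodMk continuous_fst)
    exact h2.mul (c.hw.comp continuous_snd)
  have h3 := continuous_parametric_integral_of_continuous (μ := c.ν) h1 (isCompact_univ)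
  simp only [Measure.restrict_univ] at h3
  exact h3

theorem supp_PF (c : Cyc (G ⧸ Γ)) {f : G → ℂ} (hfc : HasCompactSupport f) :
    HasCompactSupport (PF c f) := by
  obtain ⟨C', hC', h⟩ := ker_supp (Γ := Γ) hfc (isCompact_range c.hj)
  refine HasCompactSupport.intro hC' fun x hx => ?_
  have h1 : ∀ y, ker Γ f (c.j y) x * c.w y = 0 := by
    intro y
    have h2 : ker Γ f (c.j y) x = 0 := by
      by_contra h3
      exact hx (h _ (Set.mem_range_self y) x h3)
    rw [h2, zero_mul]
  unfold PF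
  simp only [h1, integral_zero]

theorem PF_int (hd : Dis Γ) (hw : Weil μ Γ m) (c : Cyc (G ⧸ Γ)) {f : G → ℂ}
    (hf : Continuous f) (hfc : HasCompactSupport f) (φ : Lp ℂ 2 m) :
    ∫ x, PF c f x * φ x ∂m = c.per (cv μ f φ) (1 : G) := by
  obtain ⟨C', hC', hs⟩ := ker_supp (Γ := Γ) hfc (isCompact_range c.hj)
  have hcont : Continuous fun p : (G ⧸ Γ) × c.Y => ker Γ f (c.j p.2) p.1 * c.w p.2 :=
    ((continuous_ker hd hf hfc).comp ((c.hj.comp continuous_snd).prodMk continuous_fst)).mul
      (c.hw.comp continuous_snd)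
  obtain ⟨M, hM⟩ : ∃ M : ℝ, ∀ x ∈ C', ∀ y, ‖ker Γ f (c.j y) x * c.w y‖ ≤ M := by
    obtain ⟨M, hM⟩ := (hC'.prod (isCompact_univ (X := c.Y))).exists_bound_of_continuousOn
      hcont.continuousOn
    exact ⟨M, fun x hx y => hM (x, y) ⟨hx, Set.mem_univ y⟩⟩
  have hφ : IntegrableOn (fun x => φ x) C' m := by
    have h1 : MemLp (fun x => φ x) 2 (m.restrict C') := (Lp.memLp φ).mono_measure
      Measure.restrict_le_self
    have : IsFiniteMeasure (m.restrict C') := ⟨by
      rw [Measure.restrict_apply_univ]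
      exact hC'.measure_lt_top⟩
    exact h1.integrable (by norm_num)
  have hφ' : Integrable (C'.indicator fun x => φ x) m :=
    (integrable_indicator_iff hC'.isClosed.measurableSet).2 hφ
  have hint : Integrable (Function.uncurry fun (x : G ⧸ Γ) (y : c.Y) =>
      ker Γ f (c.j y) x * c.w y * φ x) (m.prod c.ν) := by
    have h2 : Integrable (fun p : (G ⧸ Γ) × c.Y => |M| * ‖C'.indicator (fun x => φ x) p.1‖)
        (m.prod c.ν) := (hφ'.norm.comp_fst c.ν).const_mul |M|
    refine h2.mono' ?_ (Filter.Eventually.of_forall fun p => ?_)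
    · have h3 : AEStronglyMeasurable (fun p : (G ⧸ Γ) × c.Y => φ p.1) (m.prod c.ν) :=
        (Lp.aestronglyMeasurable φ).comp_fst
      exact hcont.measurable.aestronglyMeasurable.mul h3
    · obtain ⟨x, y⟩ := p
      change ‖ker Γ f (c.j y) x * c.w y * φ x‖ ≤ |M| * ‖C'.indicator (fun x => φ x) x‖
      by_cases hx : x ∈ C'
      · rw [Set.indicator_of_mem hx, norm_mul]
        exact mul_le_mul_of_nonneg_right ((hM x hx y).trans (le_abs_self M)) (norm_nonneg _)
      · have h2 : ker Γ f (c.j y) x = 0 := by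
          by_contra h3
          exact hx (hs _ (Set.mem_range_self y) x h3)
        rw [h2, zero_mul, zero_mul, norm_zero]
        positivity
  have h5 := integral_integral_swap hint
  have h6 : ∀ x, PF c f x * φ x = ∫ y, ker Γ f (c.j y) x * c.w y * φ x ∂c.ν := by
    intro x
    unfold PF
    rw [integral_mul_const]
  unfold Cyc.per
  simp only [h6, h5]
  refine integral_congr_ae (Filter.Eventually.of_forall fun y => ?_)
  change ∫ x, ker Γ f (c.j y) x * c.w y * φ x ∂m = cv μ f (fun x => φ x) ((1 : G)⁻¹ • c.j y) * c.w y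
  rw [inv_one, one_smul, ← ker_int hd hw hf hfc φ (c.j y), ← integral_mul_const]
  refine integral_congr_ae (Filter.Eventually.of_forall fun x => ?_)
  change ker Γ f (c.j y) x * c.w y * φ x = ker Γ f (c.j y) x * φ x * c.w y
  ring

theorem PF_right (c : Cyc (G ⧸ Γ)) {L : Set G} {χ : G → ℂ} {f : G → ℂ}
    (hfR : ∀ l ∈ L, ∀ g, f (g * l) = (χ l)⁻¹ * f g) (l : G) (h : l ∈ L) (x : G ⧸ Γ) :
    PF c f (l⁻¹ • x) = (χ l)⁻¹ * PF c f x := by
  unfold PF
  rw [← integral_const_mul]
  refine integral_congr_ae (Filter.Eventually.of_forall fun y => ?_)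
  change ker Γ f (c.j y) (l⁻¹ • x) * c.w y = (χ l)⁻¹ * (ker Γ f (c.j y) x * c.w y)
  rw [ker_right hfR h, mul_assoc]

theorem per_ne (hd : Dis Γ) (c1 c2 : Cyc (G ⧸ Γ)) (o1 : c1.ν.IsOpenPosMeasure)
    (o2 : c2.ν.IsOpenPosMeasure) {f : G → ℂ} (hf : Continuous f) (hfc : HasCompactSupport f)
    (hpos : ∀ y1 y2, 0 ≤ (ker Γ f (c1.j y1) (c2.j y2) * c1.w y1 * conj (c2.w y2)).re)
    (h0 : ∃ y1 y2, 0 < (ker Γ f (c1.j y1) (c2.j y2) * c1.w y1 * conj (c2.w y2)).re) :
    c2.per (fun x => conj (PF c1 f x)) (1 : G) ≠ 0 := by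
  have hP := continuous_PF hd c1 hf hfc
  obtain ⟨H, hH⟩ : ∃ H : c2.Y → ℝ, H = fun y2 => (PF c1 f (c2.j y2) * conj (c2.w y2)).re :=
    ⟨_, rfl⟩
  have hHc : Continuous H := by
    rw [hH]
    exact Complex.continuous_re.comp ((hP.comp c2.hj).mul (Complex.continuous_conj.comp c2.hw))
  have hkc : ∀ y2, Continuous fun y1 =>
      ker Γ f (c1.j y1) (c2.j y2) * c1.w y1 * conj (c2.w y2) := by
    intro y2
    have h2 : Continuous fun y1 : c1.Y => ker Γ f (c1.j y1) (c2.j y2) :=
      (continuous_ker hd hf hfc).comp (c1.hj.prodMk continuous_const)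
    exact (h2.mul c1.hw).mul continuous_const
  have hHint : ∀ y2, H y2 =
      ∫ y1, (ker Γ f (c1.j y1) (c2.j y2) * c1.w y1 * conj (c2.w y2)).re ∂c1.ν := by
    intro y2
    have h3 : Integrable (fun y1 => ker Γ f (c1.j y1) (c2.j y2) * c1.w y1 * conj (c2.w y2))
        c1.ν := (hkc y2).integrable_of_hasCompactSupport (HasCompactSupport.of_compactSpace _)
    have h4 := integral_re h3
    change ∫ y1, (ker Γ f (c1.j y1) (c2.j y2) * c1.w y1 * conj (c2.w y2)).re ∂c1.ν =
      (∫ y1, ker Γ f (c1.j y1) (c2.j y2) * c1.w y1 * conj (c2.w y2) ∂c1.ν).re at h4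
    rw [h4, hH, integral_mul_const]
    rfl
  have hH0 : 0 ≤ H := by
    intro y2
    rw [hHint]
    exact integral_nonneg fun y1 => hpos y1 y2
  obtain ⟨y1, y2, hy⟩ := h0
  have hHy : H y2 ≠ 0 := by
    rw [hHint]
    have h5 := Continuous.integral_pos_of_hasCompactSupport_nonneg_nonzero (μ := c1.ν)
      (f := fun y1 => (ker Γ f (c1.j y1) (c2.j y2) * c1.w y1 * conj (c2.w y2)).re) (x := y1)
      (Complex.continuous_re.comp (hkc y2)) (HasCompactSupport.of_compactSpace _)
      (fun y1 => hpos y1 y2) hy.ne'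
    exact h5.ne'
  have h6 := Continuous.integral_pos_of_hasCompactSupport_nonneg_nonzero (μ := c2.ν) (x := y2)
    hHc (HasCompactSupport.of_compactSpace _) hH0 hHy
  intro h7
  have h8 : ∫ y2, H y2 ∂c2.ν = 0 := by
    have h9 : Continuous fun y2 => PF c1 f (c2.j y2) * conj (c2.w y2) :=
      (hP.comp c2.hj).mul (Complex.continuous_conj.comp c2.hw)
    have h10 : Integrable (fun y2 => PF c1 f (c2.j y2) * conj (c2.w y2)) c2.ν :=
      h9.integrable_of_hasCompactSupport (HasCompactSupport.of_compactSpace _)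
    have h11 := integral_re h10
    change ∫ y2, (PF c1 f (c2.j y2) * conj (c2.w y2)).re ∂c2.ν =
      (∫ y2, PF c1 f (c2.j y2) * conj (c2.w y2) ∂c2.ν).re at h11
    have h12 : conj (∫ y2, PF c1 f (c2.j y2) * conj (c2.w y2) ∂c2.ν) =
        c2.per (fun x => conj (PF c1 f x)) (1 : G) := by
      rw [← integral_conj]
      unfold Cyc.per
      refine integral_congr_ae (Filter.Eventually.of_forall fun y => ?_)
      simp
    rw [h7] at h12
    have h13 : (∫ y2, PF c1 f (c2.j y2) * conj (c2.w y2) ∂c2.ν) = 0 := by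
      have := congrArg conj h12
      simpa using this
    rw [hH, h11, h13]
    rfl
  linarith

end Pool.Agent.MPabcfcd.Har
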