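import Pool.Agent.Lib.MP_abcfcd_nt.W.Basic

/-!
# The quotient by a discrete subgroup: local bounds

PROOF. `openAct_quot`: let `x = mk g`, `U ∈ 𝓝 1`; the set `{u • x}` contains the image of the
neighbourhood `{u g | u ∈ U}` of `g` under the open map `mk`. `exists_lift`: cover the compact `C`
by
finitely many images of interiors of compact neighbourhoods (`LocallyCompactSpace G`, `mk` is open).
`weil_mul`: `Weil` for `f g = k g * h (mk g)`, since `mk (x.out * γ) = x`. `loc_quot`: let `Ω`, `C`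
be
compact, `C₀` a compact lift of `C`, and `N` the number of elements of
`Γ ∩ C₀⁻¹ * Ω * Ω⁻¹ * C₀` (finite by `Dis`). For `x = mk g₀`, `g₀ ∈ C₀`:
`∫_Ω h (g⁻¹ • x) dg = ∫ 1_Ω(g) h (mk (g⁻¹ g₀)) dg = ∫ 1_Ω(g₀ g⁻¹) h (mk g) dg` (substitute
`g ↦ g₀ g⁻¹`: left, right and inversion invariance) `= ∫_X h (x') ∑_γ 1_Ω(g₀ (x'.out γ)⁻¹) dm ≤
N ∫ h dm`, because if `γ₁, γ₂` both satisfy `g₀ (x'.out γ_i)⁻¹ ∈ Ω`, that is
`x'.out γ_i ∈ Ω⁻¹ g₀`, then `γ₁⁻¹ γ₂ ∈ g₀⁻¹ Ω Ω⁻¹ g₀`; so the set of these `γ` is empty or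
contained in
`γ₁ (Γ ∩ C₀⁻¹ Ω Ω⁻¹ C₀)` and has at most `N` elements.
-/

set_option autoImplicit false

open MeasureTheory Topology
open scoped ENNReal NNReal ComplexConjugate InnerProductSpace

namespace Pool.Agent.MPabcfcd.Har

variable {G : Type} [Group G] [TopologicalSpace G] [IsTopologicalGroup G] [LocallyCompactSpace G]
  [T2Space G] [SecondCountableTopology G] [MeasurableSpace G] [BorelSpace G] {Γ : Subgroup G}
  [LocallyCompactSpace (G ⧸ Γ)] [T2Space (G ⧸ Γ)] [SecondCountableTopology (G ⧸ Γ)]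
  [BorelSpace (G ⧸ Γ)]
  {μ : Measure G} [μ.IsHaarMeasure] [μ.IsMulRightInvariant] [μ.IsInvInvariant]
  {m : Measure (G ⧸ Γ)} [IsFiniteMeasureOnCompacts m] [SMulInvariantMeasure G (G ⧸ Γ) m]

omit [LocallyCompactSpace G] [T2Space G] [SecondCountableTopology G] [MeasurableSpace G]
  [BorelSpace G] [LocallyCompactSpace (G ⧸ Γ)] [T2Space (G ⧸ Γ)]
  [SecondCountableTopology (G ⧸ Γ)] [BorelSpace (G ⧸ Γ)] in
theorem openAct_quot : OpenAct G (G ⧸ Γ) := by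
  intro x U hU
  obtain ⟨g, rfl⟩ := QuotientGroup.mk_surjective x
  have h1 : {h : G | h * g⁻¹ ∈ U} ∈ 𝓝 g := by
    have hc : Continuous fun h : G => h * g⁻¹ := by fun_prop
    have h0 : U ∈ 𝓝 (g * g⁻¹) := by rwa [mul_inv_cancel]
    exact hc.continuousAt.preimage_mem_nhds h0
  have h2 := (QuotientGroup.isOpenMap_coe (N := Γ)).image_mem_nhds h1
  refine Filter.mem_of_superset h2 ?_
  rintro y ⟨h, hh, rfl⟩
  refine ⟨h * g⁻¹, hh, ?_⟩
  rw [MulAction.Quotient.smul_mk, smul_eq_mul, inv_mul_cancel_right]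

omit [T2Space G] [SecondCountableTopology G] [MeasurableSpace G]
  [BorelSpace G] [LocallyCompactSpace (G ⧸ Γ)] [T2Space (G ⧸ Γ)]
  [SecondCountableTopology (G ⧸ Γ)] [BorelSpace (G ⧸ Γ)] in
theorem exists_lift {C : Set (G ⧸ Γ)} (hC : IsCompact C) :
    ∃ C₀ : Set G, IsCompact C₀ ∧ ∀ x ∈ C, ∃ g ∈ C₀, (QuotientGroup.mk g : G ⧸ Γ) = x := by
  have hK : ∀ x : G ⧸ Γ, ∃ K : Set G, IsCompact K ∧
      (QuotientGroup.mk : G → G ⧸ Γ) '' K ∈ 𝓝 x := by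
    intro x
    obtain ⟨K, hK, hK1⟩ := exists_compact_mem_nhds (x.out : G)
    refine ⟨K, hK, ?_⟩
    have h2 := (QuotientGroup.isOpenMap_coe (N := Γ)).image_mem_nhds hK1
    rwa [QuotientGroup.out_eq'] at h2
  choose K hK hK1 using hK
  obtain ⟨t, -, ht⟩ := hC.elim_nhds_subcover (fun x => (QuotientGroup.mk : G → G ⧸ Γ) '' K x)
    fun x _ => hK1 x
  refine ⟨⋃ x ∈ t, K x, t.isCompact_biUnion fun x _ => hK x, ?_⟩
  intro x hx
  have h1 := ht hx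
  simp only [Set.mem_iUnion] at h1
  obtain ⟨y, hy, g, hg, hgx⟩ := h1
  exact ⟨g, Set.mem_biUnion hy hg, hgx⟩

theorem weil_mul (hw : Weil μ Γ m) {h : G ⧸ Γ → ℝ≥0∞} (hh : Measurable h) {k : G → ℝ≥0∞}
    (hk : Measurable k) :
    ∫⁻ g, k g * h (QuotientGroup.mk g) ∂μ =
      ∫⁻ x : G ⧸ Γ, h x * ∑' γ : Γ, k (x.out * (γ : G)) ∂m := by
  have hmk : Measurable (QuotientGroup.mk : G → G ⧸ Γ) :=
    (QuotientGroup.continuous_mk (N := Γ)).measurable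
  rw [← hw (fun g => k g * h (QuotientGroup.mk g)) (hk.mul (hh.comp hmk))]
  refine lintegral_congr fun x => ?_
  rw [← ENNReal.tsum_mul_left]
  refine tsum_congr fun γ => ?_
  rw [QuotientGroup.mk_mul_of_mem _ γ.2, QuotientGroup.out_eq', mul_comm]

open scoped Pointwise in
theorem loc_quot (hd : Dis Γ) (hw : Weil μ Γ m) : Loc μ m := by
  classical
  intro Ω C hΩ hC
  obtain ⟨C₀, hC₀, hlift⟩ := exists_lift hC
  have hK : IsCompact (C₀⁻¹ * Ω * (Ω⁻¹ * C₀)) :=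
    (hC₀.inv.mul hΩ).mul (hΩ.inv.mul hC₀)
  have hfin : {γ : Γ | (γ : G) ∈ C₀⁻¹ * Ω * (Ω⁻¹ * C₀)}.Finite := by
    have h1 := (hd _ hK).preimage (f := (Subtype.val : Γ → G)) Subtype.val_injective.injOn
    refine h1.subset fun γ hγ => ⟨hγ, γ.2⟩
  refine ⟨(hfin.toFinset.card : ℝ≥0), fun h hh x hx => ?_⟩
  obtain ⟨g₀, hg₀, rfl⟩ := hlift x hx
  have hΩm : MeasurableSet Ω := hΩ.measurableSet
  have e1 : ∫⁻ g in Ω, h (g⁻¹ • (QuotientGroup.mk g₀ : G ⧸ Γ)) ∂μ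
      = ∫⁻ g, Ω.indicator (fun _ => (1 : ℝ≥0∞)) g *
          h (QuotientGroup.mk (g⁻¹ * g₀)) ∂μ := by
    rw [← lintegral_indicator hΩm]
    refine lintegral_congr fun g => ?_
    by_cases hg : g ∈ Ω
    · rw [Set.indicator_of_mem hg, Set.indicator_of_mem hg, one_mul,
        MulAction.Quotient.smul_mk, smul_eq_mul]
    · rw [Set.indicator_of_notMem hg, Set.indicator_of_notMem hg, zero_mul]
  have e2 : ∫⁻ g, Ω.indicator (fun _ => (1 : ℝ≥0∞)) g * h (QuotientGroup.mk (g⁻¹ * g₀)) ∂μ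
      = ∫⁻ g, Ω.indicator (fun _ => (1 : ℝ≥0∞)) (g₀ * g⁻¹) * h (QuotientGroup.mk g) ∂μ := by
    rw [← lintegral_mul_left_eq_self _ g₀, ← lintegral_inv_eq_self]
    refine lintegral_congr fun g => ?_
    rw [mul_inv_rev, inv_inv, inv_mul_cancel_right]
  have hk : Measurable fun g : G => Ω.indicator (fun _ => (1 : ℝ≥0∞)) (g₀ * g⁻¹) := by
    have h1 : Measurable (Ω.indicator fun _ : G => (1 : ℝ≥0∞)) :=
      measurable_const.indicator hΩm
    have h2 : Continuous fun g : G => g₀ * g⁻¹ := by fun_prop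
    exact h1.comp h2.measurable
  rw [e1, e2, weil_mul hw hh hk, ← lintegral_const_mul' _ _ (by simp)]
  refine lintegral_mono fun y => ?_
  simp only
  rw [mul_comm]
  refine mul_le_mul_left ?_ _
  by_cases hA : ∃ γ₁ : Γ, g₀ * ((y.out : G) * (γ₁ : G))⁻¹ ∈ Ω
  · obtain ⟨γ₁, hγ₁⟩ := hA
    rw [← (Equiv.mulLeft γ₁).tsum_eq]
    rw [tsum_eq_sum (s := hfin.toFinset)]
    · refine (Finset.sum_le_card_nsmul _ _ 1 fun γ _ => ?_).trans ?_
      · exact Set.indicator_le_self' (fun _ _ => zero_le) _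
      · simp
    · intro γ hγ
      refine Set.indicator_of_notMem ?_ _
      intro hcon
      refine hγ (hfin.mem_toFinset.2 ?_)
      have h3 : (γ : G) = (g₀⁻¹ * (g₀ * ((y.out : G) * (γ₁ : G))⁻¹)) *
          ((g₀ * ((y.out : G) * ((Equiv.mulLeft γ₁ γ : Γ) : G))⁻¹)⁻¹ * g₀) := by
        simp only [Equiv.coe_mulLeft, Subgroup.coe_mul]
        group
      show (γ : G) ∈ C₀⁻¹ * Ω * (Ω⁻¹ * C₀)
      rw [h3]
      exact Set.mul_mem_mul (Set.mul_mem_mul (Set.inv_mem_inv.2 hg₀) hγ₁)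
        (Set.mul_mem_mul (Set.inv_mem_inv.2 hcon) hg₀)
  · push Not at hA
    have h4 : ∀ γ : Γ, Ω.indicator (fun _ => (1 : ℝ≥0∞)) (g₀ * ((y.out : G) * (γ : G))⁻¹) = 0 :=
      fun γ => Set.indicator_of_notMem (hA γ) _
    rw [ENNReal.tsum_eq_zero.2 h4]
    exact zero_le

end Pool.Agent.MPabcfcd.Har
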